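import Pool.Agent.U385.Bond4

set_option autoImplicit false

namespace Pool.Agent.Results.MP_728309_co.NoDoubledPaths

open Pool.Agent.U385.Bond

/-- A 2-connected graph without triangles and without a `K₅` minor, in which no two vertices have
three common neighbours two of which have degree two, has a bond whose contraction leaves a
2-connected graph. -/
theorem result (V : Type) [Fintype V] (G : SimpleGraph V)
    (h3 : 3 ≤ Fintype.card V) (hconn : G.Connected)
    (h2 : ∀ v : V, (G.induce {w : V | w ≠ v}).Connected)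
    (htf : G.CliqueFree 3)
    (hK5 : ¬ ∃ f : Fin 5 → Set V, (∀ i, (G.induce (f i)).Connected) ∧
      (∀ i j, i ≠ j → Disjoint (f i) (f j)) ∧
      (∀ i j, i ≠ j → ∃ u ∈ f i, ∃ v ∈ f j, G.Adj u v))
    (hdp : ¬ ∃ a b z z' t : V, a ≠ b ∧ z ≠ z' ∧ t ≠ z ∧ t ≠ z' ∧
      G.neighborSet z = {a, b} ∧ G.neighborSet z' = {a, b} ∧ G.Adj t a ∧ G.Adj t b) :
    ∃ H : SimpleGraph V, H ≤ G ∧ H ≠ ⊥ ∧ ¬ (G \ H).Connected ∧
      (∀ K : SimpleGraph V, K ≤ H → K ≠ ⊥ → ¬ (G \ K).Connected → K = H) ∧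
      (∃ u v : V, ¬ H.Reachable u v) ∧
      (∃ a b c d : V, G.Adj a b ∧ G.Adj c d ∧
          ¬ H.Reachable a b ∧ ¬ H.Reachable c d ∧
          ¬ (a = c ∧ b = d) ∧ ¬ (a = d ∧ b = c)) ∧
      (∀ v : V, (G.induce {w : V | ¬ H.Reachable v w}).Connected) := by
  classical
  refine main (G := G) h3 ?_ (fun v => (cn_iff G _).2 (h2 v)) ?_ ?_ ?_
  · refine ⟨?_, fun X _ hX hcl => ?_⟩
    · obtain ⟨v⟩ := hconn.nonempty
      exact ⟨v, trivial⟩
    · obtain ⟨x, hx⟩ := hX
      refine Set.eq_univ_of_forall fun y => ?_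
      obtain ⟨p⟩ := hconn.preconnected x y
      have key : ∀ a b : V, G.Walk a b → a ∈ X → b ∈ X := by
        intro a b p
        induction p with
        | nil => exact id
        | cons hab _ ih => exact fun ha => ih (hcl _ ha _ trivial hab)
      exact key _ _ p hx
  · intro a b c hab hbc hac
    refine htf {a, b, c} ?_
    rw [SimpleGraph.is3Clique_triple_iff]
    exact ⟨hab, hac, hbc⟩
  · rintro ⟨f, h1, h2', h3'⟩
    exact hK5 ⟨f, fun i => (cn_iff G _).1 (h1 i), h2', h3'⟩
  · intro a b z z' t hab hzz htz htz' hz hz' hta htb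
    refine hdp ⟨a, b, z, z', t, hab, hzz, htz, htz', ?_, ?_, hta, htb⟩
    · ext y
      rw [SimpleGraph.mem_neighborSet]
      exact hz y
    · ext y
      rw [SimpleGraph.mem_neighborSet]
      exact hz' y

end Pool.Agent.Results.MP_728309_co.NoDoubledPaths
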